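import Pool.Agent.H446Z.Bih.Complete
import Pool.Agent.H446Z.Harm.Hopf

/-! The ambient metric, its connection and curvature. -/

set_option autoImplicit false

open scoped ContDiff Topology

namespace Pool.Agent.H446Z.Bih

open Pool.Agent.H446Z.Harm Filter Set

theorem inv_diag {n : ℕ} (d : Fin n → ℝ) (hd : ∀ i, d i ≠ 0) :
    (Matrix.diagonal d)⁻¹ = Matrix.diagonal fun i => (d i)⁻¹ := by
  apply Matrix.inv_eq_left_inv
  rw [Matrix.diagonal_mul_diagonal, ← Matrix.diagonal_one]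
  congr 1
  funext i
  exact inv_mul_cancel₀ (hd i)

theorem chris_diag {n : ℕ} (d : Euc n → Fin n → ℝ) (y : Euc n) (hd : ∀ i, d y i ≠ 0)
    (k i j : Fin n) : chris (fun z => Matrix.diagonal (d z)) k i j y =
      (1 / 2) * (d y k)⁻¹ * ((if j = k then pd i (fun z => d z k) y else 0)
        + (if i = k then pd j (fun z => d z k) y else 0)
        - (if i = j then pd k (fun z => d z i) y else 0)) := by
  have h : ∀ a b c, pd a (fun z => Matrix.diagonal (d z) b c) y =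
      if b = c then pd a (fun z => d z b) y else 0 := by
    intro a b c
    split_ifs with hbc
    · subst hbc; simp only [Matrix.diagonal_apply_eq]
    · simp only [Matrix.diagonal_apply_ne _ hbc, pd_const]
  unfold chris
  simp only [h, inv_diag _ hd]
  rw [Finset.sum_eq_single k]
  · rw [Matrix.diagonal_apply_eq, mul_assoc]
    congr 3
    · congr 1
      · split_ifs with h1
        · rw [h1]
        · rfl
      · split_ifs with h1
        · rw [h1]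
        · rfl
  · intro l _ hl
    rw [Matrix.diagonal_apply_ne _ (Ne.symm hl), zero_mul]
  · intro h; exact absurd (Finset.mem_univ k) h

/-- profile data -/
structure Prof where
  k : ℝ → ℝ
  k1 : ℝ → ℝ
  k2 : ℝ → ℝ
  w : ℝ → ℝ
  P : ℝ → ℝ
  P1 : ℝ → ℝ
  ck : ContDiff ℝ ∞ k
  cw : ContDiff ℝ ∞ w
  dk : ∀ r, HasDerivAt k (k1 r) r
  dk1 : ∀ r, HasDerivAt k1 (k2 r) r
  dw : ∀ r, HasDerivAt w (P r) r
  dP : ∀ r, HasDerivAt P (P1 r) r
  k_pos : ∀ r, 0 < k r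
  k_le : ∀ r, k r ≤ 1 / 2
  k1_le : ∀ r, |k1 r| ≤ 1 / 8
  k2_le : ∀ r, |k2 r| ≤ 1 / 8
  P_ge : ∀ r, 1 ≤ P r
  P1_ge : ∀ r, 0 ≤ P1 r
  ode : ∀ r, k2 r + 3 * P r * k1 r = 4 * k r * (1 + k r ^ 2)

/-- a function of the first and last coordinate with given partial derivatives -/
def HD (F : Euc 5 → ℝ) (y : Euc 5) (p q : ℝ) : Prop :=
  DifferentiableAt ℝ F y ∧ ∀ i, pd i F y = ![p, 0, 0, 0, q] i

theorem HD.mul {F G : Euc 5 → ℝ} {y : Euc 5} {p q p' q' : ℝ} (h : HD F y p q)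
    (h' : HD G y p' q') : HD (fun z => F z * G z) y (p * G y + F y * p') (q * G y + F y * q') := by
  refine ⟨h.1.mul h'.1, fun i => ?_⟩
  rw [pd_mul h.1 h'.1, h.2, h'.2]
  fin_cases i <;> simp

theorem HD.add {F G : Euc 5 → ℝ} {y : Euc 5} {p q p' q' : ℝ} (h : HD F y p q)
    (h' : HD G y p' q') : HD (fun z => F z + G z) y (p + p') (q + q') := by
  refine ⟨h.1.add h'.1, fun i => ?_⟩
  rw [pd_add h.1 h'.1, h.2, h'.2]
  fin_cases i <;> simp

theorem HD.const (c : ℝ) (y : Euc 5) : HD (fun _ => c) y 0 0 := by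
  refine ⟨differentiableAt_const c, fun i => ?_⟩
  rw [pd_const]
  fin_cases i <;> simp

theorem HD.comp {F : Euc 5 → ℝ} {y : Euc 5} {p q : ℝ} (h : HD F y p q) {f : ℝ → ℝ} {f' : ℝ}
    (hf : HasDerivAt f f' (F y)) : HD (fun z => f (F z)) y (f' * p) (f' * q) := by
  refine ⟨hf.differentiableAt.comp y h.1, fun i => ?_⟩
  rw [pd_comp h.1 hf, h.2]
  fin_cases i <;> simp

theorem HD.congr {F G : Euc 5 → ℝ} {y : Euc 5} {p q p' q' : ℝ} (h : HD F y p q)
    (hF : ∀ z, G z = F z) (hp : p' = p) (hq : q' = q) : HD G y p' q' := by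
  rw [show G = F from funext hF, hp, hq]; exact h

theorem HD_r (y : Euc 5) : HD (fun z => z 0) y 1 0 := by
  refine ⟨by fun_prop, fun i => ?_⟩
  rw [pd_coord]
  fin_cases i <;> simp

theorem HD_t (y : Euc 5) : HD (fun z => z 4) y 0 1 := by
  refine ⟨by fun_prop, fun i => ?_⟩
  rw [pd_coord]
  fin_cases i <;> simp

namespace Prof

variable (S : Prof)

noncomputable def a (z : Euc 5) : ℝ := Real.cosh (z 4) - S.k (z 0) * Real.sinh (z 4)
noncomputable def ar (z : Euc 5) : ℝ := -(S.k1 (z 0) * Real.sinh (z 4))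
noncomputable def at' (z : Euc 5) : ℝ := Real.sinh (z 4) - S.k (z 0) * Real.cosh (z 4)
noncomputable def arr (z : Euc 5) : ℝ := -(S.k2 (z 0) * Real.sinh (z 4))
noncomputable def art (z : Euc 5) : ℝ := -(S.k1 (z 0) * Real.cosh (z 4))
noncomputable def F (z : Euc 5) : ℝ := Real.exp (2 * S.w (z 0))
noncomputable def A (z : Euc 5) : ℝ := S.ar z * (S.a z)⁻¹
noncomputable def B (z : Euc 5) : ℝ := S.at' z * (S.a z)⁻¹
noncomputable def Q (z : Euc 5) : ℝ := S.A z + S.P (z 0)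
noncomputable def T (z : Euc 5) : ℝ := S.a z * S.at' z

noncomputable def d (z : Euc 5) : Fin 5 → ℝ :=
  ![S.a z * S.a z, S.a z * S.a z * S.F z, S.a z * S.a z * S.F z, S.a z * S.a z * S.F z, 1]

/-- the ambient metric -/
noncomputable def H (z : Euc 5) : Matrix (Fin 5) (Fin 5) ℝ := Matrix.diagonal (S.d z)

theorem sinh_le (z : Euc 5) : |Real.sinh (z 4)| ≤ 2 * S.a z ∧ 1 ≤ 2 * S.a z := by
  have h1 : |Real.sinh (z 4)| ≤ Real.cosh (z 4) := by
    rw [abs_le]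
    constructor
    · have := Real.sinh_lt_cosh (-(z 4))
      rw [Real.sinh_neg, Real.cosh_neg] at this; linarith
    · exact (Real.sinh_lt_cosh _).le
  have h2 := Real.one_le_cosh (z 4)
  have h3 : S.k (z 0) * Real.sinh (z 4) ≤ 1 / 2 * Real.cosh (z 4) := by
    have := S.k_pos (z 0)
    have := S.k_le (z 0)
    have := le_abs_self (Real.sinh (z 4))
    nlinarith
  unfold a
  constructor <;> linarith

theorem a_pos (z : Euc 5) : 0 < S.a z := by linarith [(S.sinh_le z).2]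

theorem F_pos (z : Euc 5) : 0 < S.F z := Real.exp_pos _

theorem d_pos (z : Euc 5) (i : Fin 5) : 0 < S.d z i := by
  have := S.a_pos z
  have := S.F_pos z
  fin_cases i <;> simp [d] <;> positivity

theorem HD_ch (y : Euc 5) : HD (fun z => Real.cosh (z 4)) y 0 (Real.sinh (y 4)) :=
  ((HD_t y).comp (Real.hasDerivAt_cosh _)).congr (fun _ => rfl) (by ring) (by ring)

theorem HD_sh (y : Euc 5) : HD (fun z => Real.sinh (z 4)) y 0 (Real.cosh (y 4)) :=
  ((HD_t y).comp (Real.hasDerivAt_sinh _)).congr (fun _ => rfl) (by ring) (by ring)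

theorem HD_f {f : ℝ → ℝ} {f' : ℝ} (y : Euc 5) (h : HasDerivAt f f' (y 0)) :
    HD (fun z => f (z 0)) y f' 0 :=
  ((HD_r y).comp h).congr (fun _ => rfl) (by ring) (by ring)

theorem HD_a (y : Euc 5) : HD S.a y (S.ar y) (S.at' y) :=
  ((HD_ch y).add ((HD.const (-1) y).mul ((HD_f y (S.dk _)).mul (HD_sh y)))).congr
    (fun z => by unfold a; ring) (by unfold ar; ring) (by unfold at'; ring)

theorem HD_ar (y : Euc 5) : HD S.ar y (S.arr y) (S.art y) :=
  ((HD.const (-1) y).mul ((HD_f y (S.dk1 _)).mul (HD_sh y))).congr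
    (fun z => by unfold ar; ring) (by unfold arr; ring) (by unfold art; ring)

theorem HD_at (y : Euc 5) : HD S.at' y (S.art y) (S.a y) :=
  ((HD_sh y).add ((HD.const (-1) y).mul ((HD_f y (S.dk _)).mul (HD_ch y)))).congr
    (fun z => by unfold at'; ring) (by unfold art; ring) (by unfold a; ring)

theorem HD_F (y : Euc 5) : HD S.F y (2 * S.P (y 0) * S.F y) 0 :=
  (((HD.const 2 y).mul (HD_f y (S.dw _))).comp (Real.hasDerivAt_exp _)).congr
    (fun z => rfl) (by unfold F; ring) (by ring)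

theorem HD_ia (y : Euc 5) : HD (fun z => (S.a z)⁻¹) y (-(S.A y * (S.a y)⁻¹))
    (-(S.B y * (S.a y)⁻¹)) :=
  ((S.HD_a y).comp (hasDerivAt_inv (S.a_pos y).ne')).congr (fun _ => rfl)
    (by unfold A; field_simp) (by unfold B; field_simp)

theorem HD_A (y : Euc 5) : HD S.A y (S.arr y * (S.a y)⁻¹ - S.A y ^ 2)
    (S.art y * (S.a y)⁻¹ - S.A y * S.B y) :=
  ((S.HD_ar y).mul (S.HD_ia y)).congr (fun _ => rfl) (by unfold A; ring) (by unfold A; ring)

theorem HD_B (y : Euc 5) : HD S.B y (S.art y * (S.a y)⁻¹ - S.A y * S.B y) (1 - S.B y ^ 2) :=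
  ((S.HD_at y).mul (S.HD_ia y)).congr (fun _ => rfl) (by unfold B; ring)
    (by have := (S.a_pos y).ne'; unfold B; field_simp; ring)

theorem HD_Q (y : Euc 5) : HD S.Q y (S.arr y * (S.a y)⁻¹ - S.A y ^ 2 + S.P1 (y 0))
    (S.art y * (S.a y)⁻¹ - S.A y * S.B y) :=
  ((S.HD_A y).add (HD_f y (S.dP _))).congr (fun _ => rfl) rfl (by ring)

theorem HD_T (y : Euc 5) : HD S.T y (S.ar y * S.at' y + S.a y * S.art y)
    (S.at' y * S.at' y + S.a y * S.a y) :=
  (S.HD_a y).mul (S.HD_at y)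

theorem pd_d (y : Euc 5) (k i : Fin 5) : pd i (fun z => S.d z k) y =
    ![![2 * S.a y * S.ar y, 0, 0, 0, 2 * S.T y],
      ![2 * S.a y * S.a y * S.F y * S.Q y, 0, 0, 0, 2 * S.T y * S.F y],
      ![2 * S.a y * S.a y * S.F y * S.Q y, 0, 0, 0, 2 * S.T y * S.F y],
      ![2 * S.a y * S.a y * S.F y * S.Q y, 0, 0, 0, 2 * S.T y * S.F y],
      ![0, 0, 0, 0, 0]] k i := by
  have h0 : HD (fun z => S.a z * S.a z) y (2 * S.a y * S.ar y) (2 * S.T y) :=
    ((S.HD_a y).mul (S.HD_a y)).congr (fun _ => rfl) (by ring) (by unfold T; ring)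
  have h1 : HD (fun z => S.a z * S.a z * S.F z) y (2 * S.a y * S.a y * S.F y * S.Q y)
      (2 * S.T y * S.F y) :=
    (h0.mul (S.HD_F y)).congr (fun _ => rfl)
      (by have := (S.a_pos y).ne'; unfold Q A; field_simp) (by ring)
  fin_cases k
  · exact h0.2 i
  · exact h1.2 i
  · exact h1.2 i
  · exact h1.2 i
  · exact (HD.const 1 y).2 i

/-- explicit form of the connection -/
noncomputable def g5 (y : Euc 5) (u v : Fin 5 → ℝ) : Fin 5 → ℝ :=
  ![S.A y * (u 0 * v 0) + S.B y * (u 0 * v 4 + u 4 * v 0)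
      + -(u 1 * v 1 + u 2 * v 2 + u 3 * v 3) * (S.F y * S.Q y),
    S.Q y * (u 0 * v 1 + u 1 * v 0) + S.B y * (u 4 * v 1 + u 1 * v 4),
    S.Q y * (u 0 * v 2 + u 2 * v 0) + S.B y * (u 4 * v 2 + u 2 * v 4),
    S.Q y * (u 0 * v 3 + u 3 * v 0) + S.B y * (u 4 * v 3 + u 3 * v 4),
    S.T y * -(u 0 * v 0) + -(u 1 * v 1 + u 2 * v 2 + u 3 * v 3) * (S.T y * S.F y)]

theorem gam_H (y : Euc 5) (u v : Fin 5 → ℝ) : gam S.H y u v = S.g5 y u v := by
  have ha := (S.a_pos y).ne'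
  have hF := (S.F_pos y).ne'
  funext c
  unfold gam H
  simp only [chris_diag S.d y fun i => (S.d_pos y i).ne', pd_d, Fin.sum_univ_five]
  fin_cases c <;> simp [d, g5, A, B, T] <;> field_simp <;> ring

theorem pd_g5 (y : Euc 5) (u v : Fin 5 → ℝ) (c i : Fin 5) :
    pd i (fun z => S.g5 z u v c) y =
      ![![(S.arr y * (S.a y)⁻¹ - S.A y ^ 2) * (u 0 * v 0)
          + (S.art y * (S.a y)⁻¹ - S.A y * S.B y) * (u 0 * v 4 + u 4 * v 0)
          - (u 1 * v 1 + u 2 * v 2 + u 3 * v 3) * (2 * S.P (y 0) * S.F y * S.Q y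
            + S.F y * (S.arr y * (S.a y)⁻¹ - S.A y ^ 2 + S.P1 (y 0))), 0, 0, 0,
          (S.art y * (S.a y)⁻¹ - S.A y * S.B y) * (u 0 * v 0)
          + (1 - S.B y ^ 2) * (u 0 * v 4 + u 4 * v 0)
          - (u 1 * v 1 + u 2 * v 2 + u 3 * v 3) * (S.F y * (S.art y * (S.a y)⁻¹ - S.A y * S.B y))],
        ![(S.arr y * (S.a y)⁻¹ - S.A y ^ 2 + S.P1 (y 0)) * (u 0 * v 1 + u 1 * v 0)
          + (S.art y * (S.a y)⁻¹ - S.A y * S.B y) * (u 4 * v 1 + u 1 * v 4), 0, 0, 0,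
          (S.art y * (S.a y)⁻¹ - S.A y * S.B y) * (u 0 * v 1 + u 1 * v 0)
          + (1 - S.B y ^ 2) * (u 4 * v 1 + u 1 * v 4)],
        ![(S.arr y * (S.a y)⁻¹ - S.A y ^ 2 + S.P1 (y 0)) * (u 0 * v 2 + u 2 * v 0)
          + (S.art y * (S.a y)⁻¹ - S.A y * S.B y) * (u 4 * v 2 + u 2 * v 4), 0, 0, 0,
          (S.art y * (S.a y)⁻¹ - S.A y * S.B y) * (u 0 * v 2 + u 2 * v 0)
          + (1 - S.B y ^ 2) * (u 4 * v 2 + u 2 * v 4)],
        ![(S.arr y * (S.a y)⁻¹ - S.A y ^ 2 + S.P1 (y 0)) * (u 0 * v 3 + u 3 * v 0)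
          + (S.art y * (S.a y)⁻¹ - S.A y * S.B y) * (u 4 * v 3 + u 3 * v 4), 0, 0, 0,
          (S.art y * (S.a y)⁻¹ - S.A y * S.B y) * (u 0 * v 3 + u 3 * v 0)
          + (1 - S.B y ^ 2) * (u 4 * v 3 + u 3 * v 4)],
        ![-(S.ar y * S.at' y + S.a y * S.art y) * (u 0 * v 0)
          - (u 1 * v 1 + u 2 * v 2 + u 3 * v 3) * ((S.ar y * S.at' y + S.a y * S.art y) * S.F y
            + S.T y * (2 * S.P (y 0) * S.F y)), 0, 0, 0,
          -(S.at' y * S.at' y + S.a y * S.a y) * (u 0 * v 0)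
          - (u 1 * v 1 + u 2 * v 2 + u 3 * v 3) * ((S.at' y * S.at' y + S.a y * S.a y) * S.F y)]]
        c i := by
  fin_cases c
  · exact (((((S.HD_A y).mul (HD.const _ y)).add ((S.HD_B y).mul (HD.const _ y))).add
      ((HD.const _ y).mul ((S.HD_F y).mul (S.HD_Q y)))).congr (fun _ => rfl) (by ring)
      (by ring)).2 i
  · exact ((((S.HD_Q y).mul (HD.const _ y)).add ((S.HD_B y).mul (HD.const _ y))).congr
      (fun _ => rfl) (by ring) (by ring)).2 i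
  · exact ((((S.HD_Q y).mul (HD.const _ y)).add ((S.HD_B y).mul (HD.const _ y))).congr
      (fun _ => rfl) (by ring) (by ring)).2 i
  · exact ((((S.HD_Q y).mul (HD.const _ y)).add ((S.HD_B y).mul (HD.const _ y))).congr
      (fun _ => rfl) (by ring) (by ring)).2 i
  · exact ((((S.HD_T y).mul (HD.const _ y)).add
      ((HD.const _ y).mul ((S.HD_T y).mul (S.HD_F y)))).congr (fun _ => rfl) (by ring)
      (by ring)).2 i

theorem ip_H (y : Euc 5) (u v : Fin 5 → ℝ) : ip S.H y u v =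
    S.a y * S.a y * (u 0 * v 0 + S.F y * (u 1 * v 1 + u 2 * v 2 + u 3 * v 3)) + u 4 * v 4 := by
  simp [ip, H, d, Fin.sum_univ_five, Matrix.diagonal_apply]
  ring

noncomputable def Err (y : Euc 5) : ℝ :=
  S.P1 (y 0) + S.P (y 0) ^ 2 + S.P (y 0) * S.A y + S.arr y * (S.a y)⁻¹ - S.A y ^ 2 + S.at' y ^ 2

noncomputable def Ert (y : Euc 5) : ℝ := S.art y * (S.a y)⁻¹ - S.A y * S.B y

theorem sec_H (y : Euc 5) (u v : Fin 5 → ℝ) : ip S.H y (curv S.H y u v v) u =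
    -(S.a y ^ 2 * (u 0 * v 4 - u 4 * v 0) ^ 2
      + S.a y ^ 2 * S.F y *
        ((S.Err y * (u 1 * v 0 - v 1 * u 0) ^ 2
            + 2 * S.Ert y * (u 1 * v 0 - v 1 * u 0) * (u 1 * v 4 - v 1 * u 4)
            + (u 1 * v 4 - v 1 * u 4) ^ 2)
          + (S.Err y * (u 2 * v 0 - v 2 * u 0) ^ 2
            + 2 * S.Ert y * (u 2 * v 0 - v 2 * u 0) * (u 2 * v 4 - v 2 * u 4)
            + (u 2 * v 4 - v 2 * u 4) ^ 2)
          + (S.Err y * (u 3 * v 0 - v 3 * u 0) ^ 2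
            + 2 * S.Ert y * (u 3 * v 0 - v 3 * u 0) * (u 3 * v 4 - v 3 * u 4)
            + (u 3 * v 4 - v 3 * u 4) ^ 2))
      + S.a y ^ 2 * S.F y ^ 2 * (S.Q y ^ 2 + S.at' y ^ 2) *
        ((u 1 * v 2 - u 2 * v 1) ^ 2 + (u 1 * v 3 - u 3 * v 1) ^ 2
          + (u 2 * v 3 - u 3 * v 2) ^ 2)) := by
  have ha := (S.a_pos y).ne'
  rw [ip_H]
  simp only [curv, gam_H, pd_g5, Fin.sum_univ_five]
  simp [g5, Err, Ert, Q, A, B, T]
  field_simp
  ring

theorem Ert_le (y : Euc 5) : S.Ert y ^ 2 ≤ S.Err y := by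
  have ha := S.a_pos y
  obtain ⟨h1, h2⟩ := S.sinh_le y
  have e1 : S.Ert y = -S.k1 (y 0) * ((S.a y)⁻¹) ^ 2 := by
    have := Real.cosh_sq_sub_sinh_sq (y 4)
    have h3 : S.art y * S.a y - S.ar y * S.at' y = -S.k1 (y 0) := by
      unfold art a ar at'
      linear_combination (-S.k1 (y 0)) * this
    unfold Ert A B
    rw [← h3]
    field_simp
  have hi : (S.a y)⁻¹ ≤ 2 := by rw [inv_le_comm₀ ha (by norm_num)]; linarith
  have hi0 : 0 < (S.a y)⁻¹ := inv_pos.2 ha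
  have hs : |Real.sinh (y 4) * (S.a y)⁻¹| ≤ 2 := by
    rw [abs_mul, abs_of_pos hi0, ← div_eq_mul_inv, div_le_iff₀ ha]; exact h1
  have hA : |S.A y| ≤ 1 / 4 := by
    unfold A ar
    rw [neg_mul, abs_neg, mul_assoc, abs_mul]
    nlinarith [S.k1_le (y 0), abs_nonneg (S.k1 (y 0)), abs_nonneg (Real.sinh (y 4) * (S.a y)⁻¹)]
  have hR : |S.arr y * (S.a y)⁻¹| ≤ 1 / 4 := by
    unfold arr
    rw [neg_mul, abs_neg, mul_assoc, abs_mul]
    nlinarith [S.k2_le (y 0), abs_nonneg (S.k2 (y 0)), abs_nonneg (Real.sinh (y 4) * (S.a y)⁻¹)]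
  have hE : |S.Ert y| ≤ 1 / 2 := by
    rw [e1, abs_mul, abs_neg, abs_of_pos (pow_pos hi0 2)]
    have : (S.a y)⁻¹ ^ 2 ≤ 4 := by nlinarith
    nlinarith [S.k1_le (y 0), abs_nonneg (S.k1 (y 0)), pow_pos hi0 2]
  have hP := S.P_ge (y 0)
  have hP1 := S.P1_ge (y 0)
  rw [abs_le] at hA hR hE
  unfold Err
  nlinarith [sq_nonneg (S.at' y)]

theorem nonpos : NonposCurv S.H := by
  intro y u v
  rw [sec_H, neg_nonpos]
  have h := S.Ert_le y
  have key : ∀ p q : ℝ, 0 ≤ S.Err y * p ^ 2 + 2 * S.Ert y * p * q + q ^ 2 := fun p q => by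
    nlinarith [sq_nonneg (S.Ert y * p + q), mul_nonneg (sub_nonneg.2 h) (sq_nonneg p)]
  have hF := S.F_pos y
  have k1 := key (u 1 * v 0 - v 1 * u 0) (u 1 * v 4 - v 1 * u 4)
  have k2 := key (u 2 * v 0 - v 2 * u 0) (u 2 * v 4 - v 2 * u 4)
  have k3 := key (u 3 * v 0 - v 3 * u 0) (u 3 * v 4 - v 3 * u 4)
  positivity

end Prof

end Pool.Agent.H446Z.Bih
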