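import Pool.Agent.H446Z.Bih.Defs

/-! A criterion for completeness. -/

set_option autoImplicit false

open scoped ContDiff Topology

namespace Pool.Agent.H446Z.Bih

open Pool.Agent.H446Z.Harm Filter Set

variable {n : ℕ}

theorem norm_sub_le_of {E : Type*} [NormedAddCommGroup E] [NormedSpace ℝ E] [CompleteSpace E]
    {γ : ℝ → E} (hγ : ContDiff ℝ 1 γ) {f : ℝ → ℝ} (hf : Continuous f) (hf0 : ∀ t, 0 ≤ f t)
    {t : ℝ} (h0 : 0 ≤ t) (h1 : t ≤ 1) (h : ∀ s ∈ Icc (0 : ℝ) 1, ‖deriv γ s‖ ≤ f s) :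
    ‖γ t - γ 0‖ ≤ ∫ s in (0 : ℝ)..1, f s := by
  have hd : Continuous (deriv γ) := hγ.continuous_deriv le_rfl
  rw [← intervalIntegral.integral_deriv_eq_sub (fun s _ => hγ.differentiable (by simp) s)
    (hd.intervalIntegrable _ _)]
  calc ‖∫ s in (0 : ℝ)..t, deriv γ s‖ ≤ ∫ s in (0 : ℝ)..t, ‖deriv γ s‖ :=
        intervalIntegral.norm_integral_le_integral_norm h0
    _ ≤ ∫ s in (0 : ℝ)..t, f s :=
        intervalIntegral.integral_mono_on h0 (hd.norm.intervalIntegrable _ _)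
          (hf.intervalIntegrable _ _) fun s hs => h s ⟨hs.1, hs.2.trans h1⟩
    _ ≤ ∫ s in (0 : ℝ)..1, f s :=
        intervalIntegral.integral_mono_interval le_rfl h0 h1
          (Eventually.of_forall fun s => hf0 s) (hf.intervalIntegrable _ _)

theorem complete_of (G : Euc n → Matrix (Fin n) (Fin n) ℝ)
    (hG : ∀ i j, Continuous fun y => G y i j) (i0 : Fin n) (C : ℝ) (hC0 : 0 ≤ C)
    (hC : ∀ (y : Euc n) (v : Euc n), |v i0| ≤ C * √(ip G y (fun a => v a) (fun a => v a)))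
    (hR : ∀ R : ℝ, ∃ c > 0, ∀ (y : Euc n) (v : Euc n), |y i0| ≤ R → ‖v‖ ≤ c * √(ip G y (fun a => v a) (fun a => v a))) :
    Complete G := by
  intro u hu
  have hcont : ∀ γ : ℝ → Euc n, ContDiff ℝ 1 γ →
      Continuous fun t => √(ip G (γ t) (fun a => deriv γ t a) (fun a => deriv γ t a)) := by
    intro γ hγ
    have hd : Continuous (deriv γ) := hγ.continuous_deriv le_rfl
    have hc := hγ.continuous
    unfold ip
    refine Continuous.sqrt (continuous_finsetSum _ fun a _ => continuous_finsetSum _ fun b _ => ?_)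
    exact (((hG a b).comp hc).mul (by fun_prop)).mul (by fun_prop)
  have hcoord : ∀ γ : ℝ → Euc n, ContDiff ℝ 1 γ → ∀ t ∈ Icc (0 : ℝ) 1,
      |γ t i0 - γ 0 i0| ≤ C * len G γ := by
    intro γ hγ t ht
    have h1 : ContDiff ℝ 1 fun s => γ s i0 := by fun_prop
    have := norm_sub_le_of h1 (f := fun s => C * √(ip G (γ s) (fun a => deriv γ s a) (fun a => deriv γ s a)))
      (continuous_const.mul (hcont γ hγ)) (fun s => by positivity) ht.1 ht.2 (fun s _ => by
        have hs : HasDerivAt (fun s => γ s i0) (deriv γ s i0) s :=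
          (EuclideanSpace.proj i0 : Euc n →L[ℝ] ℝ).hasFDerivAt.comp_hasDerivAt s
            (hγ.differentiable (by simp) s).hasDerivAt
        rw [hs.deriv]
        exact hC _ _)
    rwa [intervalIntegral.integral_const_mul] at this
  have hcurve : ∀ x y : Euc n, ∀ ε, rdist G x y < ε →
      ∃ γ : ℝ → Euc n, ContDiff ℝ 1 γ ∧ γ 0 = x ∧ γ 1 = y ∧ len G γ < ε := by
    intro x y ε h
    obtain ⟨l, ⟨γ, h1, h2, h3, rfl⟩, hl⟩ := exists_lt_of_csInf_lt
      (s := {l | ∃ γ : ℝ → Euc n, ContDiff ℝ 1 γ ∧ γ 0 = x ∧ γ 1 = y ∧ l = len G γ})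
      ⟨_, fun t => x + t • (y - x), by fun_prop, by simp, by simp, rfl⟩ h
    exact ⟨γ, h1, h2, h3, hl⟩
  obtain ⟨N1, hN1⟩ := hu 1 one_pos
  obtain ⟨c, hc, hcR⟩ := hR (|u N1 i0| + 2 * C)
  apply cauchySeq_tendsto_of_complete
  rw [Metric.cauchySeq_iff]
  intro ε hε
  obtain ⟨N2, hN2⟩ := hu (min 1 (ε / c)) (by positivity)
  refine ⟨max N1 N2, fun j hj k hk => ?_⟩
  obtain ⟨γ0, a1, a2, a3, a4⟩ := hcurve _ _ _ (hN1 N1 le_rfl k (le_of_max_le_left hk))
  have b1 : |u k i0 - u N1 i0| ≤ C := by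
    have := hcoord γ0 a1 1 ⟨zero_le_one, le_rfl⟩
    rw [a2, a3] at this
    nlinarith
  obtain ⟨γ, c1, c2, c3, c4⟩ := hcurve _ _ _
    (hN2 k (le_of_max_le_right hk) j (le_of_max_le_right hj))
  have b2 : ∀ t ∈ Icc (0 : ℝ) 1, |γ t i0| ≤ |u N1 i0| + 2 * C := by
    intro t ht
    have h1 := hcoord γ c1 t ht
    rw [c2] at h1
    have h2 : len G γ < 1 := c4.trans_le (min_le_left _ _)
    have h3 : C * len G γ ≤ C := by nlinarith
    have h4 := abs_sub_abs_le_abs_sub (γ t i0) (u k i0)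
    have h5 := abs_sub_abs_le_abs_sub (u k i0) (u N1 i0)
    linarith
  have := norm_sub_le_of c1 (f := fun s => c * √(ip G (γ s) (fun a => deriv γ s a) (fun a => deriv γ s a)))
    (continuous_const.mul (hcont γ c1)) (fun s => by positivity) zero_le_one le_rfl
    (fun s hs => hcR _ _ (b2 s hs))
  rw [intervalIntegral.integral_const_mul, c2, c3] at this
  rw [dist_eq_norm]
  have h2 : len G γ < ε / c := c4.trans_le (min_le_right _ _)
  rw [lt_div_iff₀ hc] at h2
  have h3 : c * len G γ < ε := by linarith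
  exact this.trans_lt h3

end Pool.Agent.H446Z.Bih
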