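import Pool.Agent.H446Z.Harm.Defs

set_option autoImplicit false

open scoped ContDiff Topology

namespace Pool.Agent.H446Z.Bih

open Pool.Agent.H446Z.Harm Filter

variable {m n : ℕ}

/-- `G` is (the coefficient matrix of) a smooth Riemannian metric on Euclidean `n`-space. -/
def IsMetric (G : Euc n → Matrix (Fin n) (Fin n) ℝ) : Prop :=
  (∀ i j, ContDiff ℝ ∞ fun y => G y i j) ∧ ∀ y, (G y).PosDef

/-- The inner product `G_y(u, v)`. -/
def ip (G : Euc n → Matrix (Fin n) (Fin n) ℝ) (y : Euc n) (u v : Fin n → ℝ) : ℝ :=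
  ∑ a, ∑ b, G y a b * u a * v b

/-- The vector `Γ^c_{ab} u^a v^b`: the covariant derivative `∇_u v` for constant fields. -/
noncomputable def gam (G : Euc n → Matrix (Fin n) (Fin n) ℝ) (y : Euc n) (u v : Fin n → ℝ) :
    Fin n → ℝ :=
  fun c => ∑ a, ∑ b, chris G c a b y * u a * v b

/-- The curvature `R(u, v) w = ∇_u ∇_v w - ∇_v ∇_u w` at `y`, computed with constant fields. -/
noncomputable def curv (G : Euc n → Matrix (Fin n) (Fin n) ℝ) (y : Euc n) (u v w : Fin n → ℝ) :
    Fin n → ℝ :=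
  fun d => ∑ a, u a * pd a (fun z => gam G z v w d) y - ∑ a, v a * pd a (fun z => gam G z u w d) y
    + gam G y u (gam G y v w) d - gam G y v (gam G y u w) d

/-- All sectional curvatures are nonpositive: `G(R(u, v) v, u) ≤ 0`. -/
def NonposCurv (G : Euc n → Matrix (Fin n) (Fin n) ℝ) : Prop :=
  ∀ (y : Euc n) (u v : Fin n → ℝ), ip G y (curv G y u v v) u ≤ 0

/-- The length of the curve `γ` on `[0, 1]`. -/
noncomputable def len (G : Euc n → Matrix (Fin n) (Fin n) ℝ) (γ : ℝ → Euc n) : ℝ :=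
  ∫ t in (0 : ℝ)..1, √(ip G (γ t) (fun a => deriv γ t a) (fun a => deriv γ t a))

/-- The Riemannian distance: the infimum of the lengths of `C¹` curves from `x` to `y`. -/
noncomputable def rdist (G : Euc n → Matrix (Fin n) (Fin n) ℝ) (x y : Euc n) : ℝ :=
  sInf {l | ∃ γ : ℝ → Euc n, ContDiff ℝ 1 γ ∧ γ 0 = x ∧ γ 1 = y ∧ l = len G γ}

/-- Completeness: every sequence that is Cauchy for the Riemannian distance converges. -/
def Complete (G : Euc n → Matrix (Fin n) (Fin n) ℝ) : Prop :=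
  ∀ u : ℕ → Euc n, (∀ ε > 0, ∃ N, ∀ j ≥ N, ∀ k ≥ N, rdist G (u j) (u k) < ε) →
    ∃ x, Tendsto u atTop (𝓝 x)

/-- The vector `dφ(∂_i)` at `y`. -/
noncomputable def dphi (φ : Euc m → Euc n) (i : Fin m) (y : Euc m) : Fin n → ℝ :=
  fun a => pd i (fun z => φ z a) y

/-- The induced metric `φ^* H`. -/
noncomputable def pullback (H : Euc n → Matrix (Fin n) (Fin n) ℝ) (φ : Euc m → Euc n)
    (y : Euc m) : Matrix (Fin m) (Fin m) ℝ :=
  Matrix.of fun i j => ip H (φ y) (dphi φ i y) (dphi φ j y)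

/-- The covariant derivative `∇^φ_{∂_i} W` of a vector field `W` along `φ`. -/
noncomputable def cov (H : Euc n → Matrix (Fin n) (Fin n) ℝ) (φ : Euc m → Euc n)
    (W : Euc m → Fin n → ℝ) (i : Fin m) (y : Euc m) : Fin n → ℝ :=
  fun c => pd i (fun z => W z c) y + gam H (φ y) (dphi φ i y) (W y) c

/-- The tension field of `φ` for the induced metric, as a vector field along `φ`. -/
noncomputable def tau (H : Euc n → Matrix (Fin n) (Fin n) ℝ) (φ : Euc m → Euc n) (y : Euc m) :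
    Fin n → ℝ :=
  fun c => tension (pullback H φ) H φ c y

/-- The bitension field
`g^{ij} (∇_i ∇_j τ - Γ^k_{ij} ∇_k τ - R(dφ ∂_i, τ) dφ ∂_j)` of `φ` for the induced metric `g`. -/
noncomputable def bitension (H : Euc n → Matrix (Fin n) (Fin n) ℝ) (φ : Euc m → Euc n)
    (y : Euc m) : Fin n → ℝ :=
  fun d => ∑ i, ∑ j, (pullback H φ y)⁻¹ i j *
    (cov H φ (cov H φ (tau H φ) j) i y d
      - ∑ k, chris (pullback H φ) k i j y * cov H φ (tau H φ) k y d
      - curv H (φ y) (dphi φ i y) (tau H φ y) (dphi φ j y) d)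

end Pool.Agent.H446Z.Bih
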