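import Pool.Agent.H446Z.Bih.Amb

/-! The hypersurface, its tension and bitension fields; completeness; the explicit profile. -/

set_option autoImplicit false

open scoped ContDiff Topology

namespace Pool.Agent.H446Z.Bih

open Pool.Agent.H446Z.Harm Filter Set

/-- the hyperplane -/
noncomputable def emb (y : Euc 4) : Euc 5 := !₂[y 0, y 1, y 2, y 3, 0]

theorem contDiff_emb : ContDiff ℝ ∞ emb := by
  unfold emb
  refine contDiff_euclidean.2 fun i => ?_
  fin_cases i <;> simp <;> fun_prop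

/-- basis vectors -/
def ee (i : Fin 4) : Fin 5 → ℝ :=
  ![![1, 0, 0, 0, 0], ![0, 1, 0, 0, 0], ![0, 0, 1, 0, 0], ![0, 0, 0, 1, 0]] i

theorem pd_emb (i : Fin 4) (a : Fin 5) (y : Euc 4) : pd i (fun z => emb z a) y = ee i a := by
  fin_cases a
  · exact (pd_coord y i 0).trans (by fin_cases i <;> simp [ee])
  · exact (pd_coord y i 1).trans (by fin_cases i <;> simp [ee])
  · exact (pd_coord y i 2).trans (by fin_cases i <;> simp [ee])
  · exact (pd_coord y i 3).trans (by fin_cases i <;> simp [ee])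
  · exact (pd_const 0 y i).trans (by fin_cases i <;> simp [ee])

theorem dphi_emb (i : Fin 4) (y : Euc 4) : dphi emb i y = ee i := funext fun a => pd_emb i a y

theorem pd_f {f : ℝ → ℝ} {f' : ℝ} (y : Euc 4) (h : HasDerivAt f f' (y 0)) (i : Fin 4) :
    pd i (fun z : Euc 4 => f (z 0)) y = ![f', 0, 0, 0] i := by
  rw [pd_comp (u := fun z : Euc 4 => z 0) (by fun_prop) h, pd_coord]
  fin_cases i <;> simp

namespace Prof

variable (S : Prof)

noncomputable def f2 (r : ℝ) : ℝ := Real.exp (2 * S.w r)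

theorem df2 (r : ℝ) : HasDerivAt S.f2 (2 * S.P r * S.f2 r) r :=
  (((S.dw r).const_mul 2).exp).congr_deriv (by unfold f2; ring)

noncomputable def d4 (y : Euc 4) : Fin 4 → ℝ := ![1, S.f2 (y 0), S.f2 (y 0), S.f2 (y 0)]

theorem d4_pos (y : Euc 4) (i : Fin 4) : 0 < S.d4 y i := by
  have : 0 < S.f2 (y 0) := Real.exp_pos _
  fin_cases i <;> simp [d4, this]

theorem a_emb (y : Euc 4) : S.a (emb y) = 1 := by simp [a, emb]
theorem ar_emb (y : Euc 4) : S.ar (emb y) = 0 := by simp [ar, emb]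
theorem at_emb (y : Euc 4) : S.at' (emb y) = -S.k (y 0) := by simp [at', emb]
theorem arr_emb (y : Euc 4) : S.arr (emb y) = 0 := by simp [arr, emb]
theorem art_emb (y : Euc 4) : S.art (emb y) = -S.k1 (y 0) := by simp [art, emb]
theorem F_emb (y : Euc 4) : S.F (emb y) = S.f2 (y 0) := by simp [F, f2, emb]
theorem A_emb (y : Euc 4) : S.A (emb y) = 0 := by simp [A, ar_emb]
theorem B_emb (y : Euc 4) : S.B (emb y) = -S.k (y 0) := by simp [B, at_emb, a_emb]
theorem emb_zero (y : Euc 4) : emb y 0 = y 0 := rfl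
theorem Q_emb (y : Euc 4) : S.Q (emb y) = S.P (y 0) := by simp [Q, A_emb, emb_zero]
theorem T_emb (y : Euc 4) : S.T (emb y) = -S.k (y 0) := by simp [T, at_emb, a_emb]

theorem pullback_eq : pullback S.H emb = fun y => Matrix.diagonal (S.d4 y) := by
  funext y
  ext i j
  simp only [pullback, Matrix.of_apply, dphi_emb, ip_H, a_emb, F_emb]
  fin_cases i <;> fin_cases j <;> simp [ee, d4]

theorem pd_d4 (y : Euc 4) (k i : Fin 4) : pd i (fun z => S.d4 z k) y =
    ![![0, 0, 0, 0], ![2 * S.P (y 0) * S.f2 (y 0), 0, 0, 0],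
      ![2 * S.P (y 0) * S.f2 (y 0), 0, 0, 0], ![2 * S.P (y 0) * S.f2 (y 0), 0, 0, 0]] k i := by
  fin_cases k
  · exact (pd_const 1 y i).trans (by fin_cases i <;> simp)
  · exact pd_f y (S.df2 _) i
  · exact pd_f y (S.df2 _) i
  · exact pd_f y (S.df2 _) i

theorem sum_chris (y : Euc 4) (c : Fin 5) (u v : Fin 5 → ℝ) :
    ∑ a, ∑ b, chris S.H c a b (emb y) * u a * v b = S.g5 (emb y) u v c := by
  rw [← gam_H]; rfl

theorem tau_eq : tau S.H emb = fun y => ![0, 0, 0, 0, 4 * S.k (y 0)] := by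
  funext y c
  have hf : S.f2 (y 0) ≠ 0 := (Real.exp_pos _).ne'
  have h1 : ∀ j, pd j (fun z => emb z c) = fun _ => ee j c := fun j => funext (pd_emb j c)
  simp only [tau, tension, hess, pullback_eq, h1, pd_const, pd_emb, sum_chris,
    inv_diag _ fun i => (S.d4_pos y i).ne', chris_diag S.d4 y fun i => (S.d4_pos y i).ne', pd_d4,
    Fin.sum_univ_four]
  fin_cases c <;>
    simp [Matrix.diagonal_apply, g5, ee, d4, A_emb, B_emb, Q_emb, T_emb, F_emb] <;>
    field_simp <;> ring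

noncomputable def c1 (j : Fin 4) (y : Euc 4) : Fin 5 → ℝ :=
  ![![-4 * S.k (y 0) ^ 2, 0, 0, 0, 4 * S.k1 (y 0)], ![0, -4 * S.k (y 0) ^ 2, 0, 0, 0],
    ![0, 0, -4 * S.k (y 0) ^ 2, 0, 0], ![0, 0, 0, -4 * S.k (y 0) ^ 2, 0]] j

theorem cov_tau (j : Fin 4) : cov S.H emb (tau S.H emb) j = S.c1 j := by
  funext y c
  have h1 : pd j (fun z : Euc 4 => (![0, 0, 0, 0, 4 * S.k (z 0)] : Fin 5 → ℝ) c) y =
      ![0, 0, 0, 0, ![4 * S.k1 (y 0), 0, 0, 0] j] c := by
    fin_cases c
    · exact pd_const 0 y j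
    · exact pd_const 0 y j
    · exact pd_const 0 y j
    · exact pd_const 0 y j
    · exact pd_f (f := fun r => 4 * S.k r) y ((S.dk _).const_mul 4) j
  simp only [cov, tau_eq, h1, gam_H, dphi_emb]
  fin_cases j <;> fin_cases c <;> simp [g5, ee, c1, B_emb] <;> ring

theorem pd_c1 (i j : Fin 4) (c : Fin 5) (y : Euc 4) : pd i (fun z => S.c1 j z c) y =
    ![(![![-8 * S.k (y 0) * S.k1 (y 0), 0, 0, 0, 4 * S.k2 (y 0)],
      ![0, -8 * S.k (y 0) * S.k1 (y 0), 0, 0, 0], ![0, 0, -8 * S.k (y 0) * S.k1 (y 0), 0, 0],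
      ![0, 0, 0, -8 * S.k (y 0) * S.k1 (y 0), 0]] : Fin 4 → Fin 5 → ℝ) j c, 0, 0, 0] i := by
  have h0 : pd i (fun _ : Euc 4 => (0 : ℝ)) y = ![0, 0, 0, 0] i :=
    (pd_const 0 y i).trans (by fin_cases i <;> simp)
  have h1 : pd i (fun z : Euc 4 => -4 * S.k (z 0) ^ 2) y =
      ![-8 * S.k (y 0) * S.k1 (y 0), 0, 0, 0] i :=
    pd_f (f := fun r => -4 * S.k r ^ 2) y
      ((((S.dk _).fun_pow 2).const_mul (-4)).congr_deriv (by simp; ring)) i
  have h2 : pd i (fun z : Euc 4 => 4 * S.k1 (z 0)) y = ![4 * S.k2 (y 0), 0, 0, 0] i :=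
    pd_f (f := fun r => 4 * S.k1 r) y ((S.dk1 _).const_mul 4) i
  fin_cases j <;> fin_cases c <;> first | exact h0 | exact h1 | exact h2

theorem bitension_eq (y : Euc 4) : bitension S.H emb y = 0 := by
  funext c
  have hf : S.f2 (y 0) ≠ 0 := (Real.exp_pos _).ne'
  have ho := S.ode (y 0)
  simp only [bitension, cov_tau]
  simp only [cov, pd_c1, tau_eq, pullback_eq, curv, gam_H, pd_g5, dphi_emb,
    inv_diag _ fun i => (S.d4_pos y i).ne', chris_diag S.d4 y fun i => (S.d4_pos y i).ne', pd_d4,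
    Fin.sum_univ_four, Fin.sum_univ_five]
  fin_cases c <;>
    simp [Matrix.diagonal_apply, g5, ee, d4, c1, A_emb, B_emb, Q_emb, T_emb, F_emb, a_emb, ar_emb,
      at_emb, arr_emb, art_emb, emb_zero] <;>
    field_simp
  · ring
  · linear_combination 4 * ho

theorem isMetric_H : IsMetric S.H := by
  refine ⟨fun i j => ?_, fun y => Matrix.PosDef.diagonal (S.d_pos y)⟩
  have hk := S.ck
  have hw := S.cw
  have ha : ContDiff ℝ ∞ S.a := by unfold a; fun_prop
  have hF : ContDiff ℝ ∞ S.F := by unfold F; fun_prop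
  fin_cases i <;> fin_cases j <;> simp [H, d] <;> fun_prop

theorem isMetric_pb : IsMetric (pullback S.H emb) := by
  rw [pullback_eq]
  refine ⟨fun i j => ?_, fun y => Matrix.PosDef.diagonal (S.d4_pos y)⟩
  have hw := S.cw
  have hF : ContDiff ℝ ∞ S.f2 := by unfold f2; fun_prop
  fin_cases i <;> fin_cases j <;> simp [d4] <;> fun_prop

theorem f2_lower (R : ℝ) : ∃ b, 0 < b ∧ b ≤ 1 ∧ ∀ r, |r| ≤ R → b ≤ S.f2 r := by
  have hmono : Monotone S.w :=
    monotone_of_deriv_nonneg (fun r => (S.dw r).differentiableAt) fun r => by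
      rw [(S.dw r).deriv]; linarith [S.P_ge r]
  refine ⟨min 1 (S.f2 (-R)), lt_min one_pos (Real.exp_pos _), min_le_left _ _, fun r hr => ?_⟩
  refine (min_le_right _ _).trans (Real.exp_le_exp.2 ?_)
  have := hmono (abs_le.1 hr).1
  linarith

theorem le_mul_sqrt {x c q : ℝ} (hc : 0 ≤ c) (h : x ^ 2 ≤ c ^ 2 * q) : |x| ≤ c * √q := by
  rw [← Real.sqrt_sq hc, ← Real.sqrt_mul (sq_nonneg c)]
  exact Real.abs_le_sqrt h

theorem complete_H : Complete S.H := by
  refine complete_of _ (fun i j => (S.isMetric_H.1 i j).continuous) 0 2 (by norm_num) ?_ ?_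
  · intro y v
    refine le_mul_sqrt (by norm_num) ?_
    rw [ip_H]
    have h1 := (S.sinh_le y).2
    have h2 := S.F_pos y
    have h3 : 1 ≤ 4 * (S.a y * S.a y) := by nlinarith
    have h5 : 0 ≤ v 1 * v 1 + v 2 * v 2 + v 3 * v 3 := by
      nlinarith [mul_self_nonneg (v 1), mul_self_nonneg (v 2), mul_self_nonneg (v 3)]
    have h4 := mul_nonneg h2.le h5
    have h9 : 0 ≤ v 0 * v 0 + S.F y * (v 1 * v 1 + v 2 * v 2 + v 3 * v 3) := by
      nlinarith [mul_self_nonneg (v 0)]
    nlinarith [mul_self_nonneg (v 0), mul_self_nonneg (v 4), mul_nonneg (sub_nonneg.2 h3) h9]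
  · intro R
    obtain ⟨b, hb, hb1, hbR⟩ := S.f2_lower R
    refine ⟨2 / b, by positivity, fun y v hy => ?_⟩
    rw [← abs_of_nonneg (norm_nonneg v)]
    refine le_mul_sqrt (by positivity) ?_
    rw [ip_H, EuclideanSpace.real_norm_sq_eq, Fin.sum_univ_five, div_pow, div_mul_eq_mul_div,
      le_div_iff₀ (by positivity)]
    have h1 := (S.sinh_le y).2
    have h2 : b ≤ S.F y := hbR _ hy
    have h3 : 1 ≤ 4 * (S.a y * S.a y) := by nlinarith
    have h5 : 0 ≤ v 1 * v 1 + v 2 * v 2 + v 3 * v 3 := by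
      nlinarith [mul_self_nonneg (v 1), mul_self_nonneg (v 2), mul_self_nonneg (v 3)]
    have h6 : b ^ 2 ≤ S.F y := by nlinarith
    have h7 : b ^ 2 ≤ 1 := by nlinarith
    have h8 : (v 1 * v 1 + v 2 * v 2 + v 3 * v 3) * b ^ 2 ≤
        S.F y * (v 1 * v 1 + v 2 * v 2 + v 3 * v 3) := by nlinarith
    have h9 : 0 ≤ v 0 * v 0 + S.F y * (v 1 * v 1 + v 2 * v 2 + v 3 * v 3) := by
      nlinarith [mul_self_nonneg (v 0)]
    nlinarith [mul_self_nonneg (v 0), mul_self_nonneg (v 4), mul_nonneg (sub_nonneg.2 h3) h9]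

theorem ip_pb (y : Euc 4) (v : Fin 4 → ℝ) : ip (pullback S.H emb) y v v =
    v 0 ^ 2 + S.f2 (y 0) * (v 1 ^ 2 + v 2 ^ 2 + v 3 ^ 2) := by
  simp [ip, pullback_eq, d4, Fin.sum_univ_four, Matrix.diagonal_apply]
  ring

theorem complete_pb : Complete (pullback S.H emb) := by
  refine complete_of _ (fun i j => (S.isMetric_pb.1 i j).continuous) 0 1 (by norm_num) ?_ ?_
  · intro y v
    refine le_mul_sqrt (by norm_num) ?_
    rw [ip_pb]
    have h2 : 0 < S.f2 (y 0) := Real.exp_pos _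
    have : 0 ≤ S.f2 (y 0) * (v 1 ^ 2 + v 2 ^ 2 + v 3 ^ 2) := by positivity
    linarith
  · intro R
    obtain ⟨b, hb, hb1, hbR⟩ := S.f2_lower R
    refine ⟨1 / b, by positivity, fun y v hy => ?_⟩
    rw [← abs_of_nonneg (norm_nonneg v)]
    refine le_mul_sqrt (by positivity) ?_
    rw [ip_pb, EuclideanSpace.real_norm_sq_eq, Fin.sum_univ_four, div_pow, div_mul_eq_mul_div,
      le_div_iff₀ (by positivity)]
    have h2 : b ≤ S.f2 (y 0) := hbR _ hy
    have h5 : 0 ≤ v 1 ^ 2 + v 2 ^ 2 + v 3 ^ 2 := by positivity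
    have h6 : b ^ 2 ≤ S.f2 (y 0) := by nlinarith
    have h7 : b ^ 2 ≤ 1 := by nlinarith
    nlinarith [sq_nonneg (v 0), mul_nonneg (sub_nonneg.2 h6) h5]

end Prof

open Real in
/-- the explicit profile -/
noncomputable def prof : Prof where
  k r := exp r / (2 * (1 + exp r))
  k1 r := exp r / (2 * (1 + exp r) ^ 2)
  k2 r := exp r * (1 - exp r) / (2 * (1 + exp r) ^ 3)
  w r := (3 * r + 5 * exp r + log (1 + exp r)) / 3
  P r := (3 + 5 * exp r + exp r / (1 + exp r)) / 3
  P1 r := (5 * exp r + exp r / (1 + exp r) ^ 2) / 3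
  ck := contDiff_exp.div (by fun_prop) fun r => by positivity
  cw := by
    refine ContDiff.div_const (ContDiff.add (by fun_prop) ?_) 3
    exact ContDiff.log (by fun_prop) fun r => by positivity
  dk r := by
    have h := (hasDerivAt_exp r).fun_div (((hasDerivAt_exp r).const_add 1).const_mul 2)
      (by positivity)
    refine h.congr_deriv ?_
    field_simp
    ring
  dk1 r := by
    have h := (hasDerivAt_exp r).fun_div
      ((((hasDerivAt_exp r).const_add 1).fun_pow 2).const_mul 2) (by positivity)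
    refine h.congr_deriv ?_
    simp
    field_simp
    ring
  dw r := by
    have h := (((((hasDerivAt_id' r).const_mul 3).fun_add ((hasDerivAt_exp r).const_mul 5)).fun_add
      (((hasDerivAt_exp r).const_add 1).log (by positivity))).div_const 3)
    refine h.congr_deriv ?_
    ring
  dP r := by
    have h := ((((hasDerivAt_exp r).const_mul 5).const_add 3).fun_add
      ((hasDerivAt_exp r).fun_div ((hasDerivAt_exp r).const_add 1) (by positivity))).div_const 3
    refine h.congr_deriv ?_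
    field_simp
    ring
  k_pos r := by positivity
  k_le r := by
    have := exp_pos r
    rw [div_le_iff₀ (by positivity)]; linarith
  k1_le r := by
    have := exp_pos r
    rw [abs_of_pos (by positivity), div_le_iff₀ (by positivity)]
    nlinarith [sq_nonneg (1 - exp r)]
  k2_le r := by
    have h := exp_pos r
    rw [abs_div, abs_of_pos (a := 2 * (1 + exp r) ^ 3) (by positivity), div_le_iff₀ (by positivity),
      abs_le]
    constructor <;> nlinarith [sq_nonneg (1 - exp r), mul_pos h h, mul_pos h (mul_pos h h),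
      mul_nonneg h.le (sq_nonneg (1 - exp r))]
  P_ge r := by
    have h := exp_pos r
    have : 0 < exp r / (1 + exp r) := by positivity
    linarith
  P1_ge r := by positivity
  ode r := by
    have h := exp_pos r
    field_simp
    ring

theorem main : ∃ (H : Euc 5 → Matrix (Fin 5) (Fin 5) ℝ) (φ : Euc 4 → Euc 5),
    IsMetric H ∧ Complete H ∧ NonposCurv H ∧ ContDiff ℝ ∞ φ ∧ IsMetric (pullback H φ) ∧
      Complete (pullback H φ) ∧ (∀ y, bitension H φ y = 0) ∧ ∀ y, tau H φ y ≠ 0 := by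
  refine ⟨prof.H, emb, prof.isMetric_H, prof.complete_H, prof.nonpos, contDiff_emb,
    prof.isMetric_pb, prof.complete_pb, prof.bitension_eq, fun y h => ?_⟩
  rw [Prof.tau_eq] at h
  have h1 := congrFun h 4
  have h2 := prof.k_pos (y 0)
  simp at h1
  linarith

end Pool.Agent.H446Z.Bih
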